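import Pool.Agent.H64.G.R_seed8.Helper240.ZFM.Defs
import Pool.Agent.H64.G.R_seed8.Helper240.ZFM.AreaA

open Complex Filter Topology Set Metric

namespace ZFM.J_b1









theorem bieb_norm {g : ℂ → ℂ} (hd : DifferentiableOn ℂ g (ball 0 1)) (hi : InjOn g (ball 0 1))
    (h0 : g 0 = 0) (h1 : deriv g 0 = 1) : ‖deriv (deriv g) 0‖ ≤ 4 := by
  have hb0 : (0 : ℂ) ∈ ball (0 : ℂ) 1 := mem_ball_self one_pos
  have hnb : ball (0 : ℂ) 1 ∈ 𝓝 (0 : ℂ) := isOpen_ball.mem_nhds hb0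
  set u : ℂ → ℂ := dslope g 0 with hu
  have hud : DifferentiableOn ℂ u (ball 0 1) := (Complex.differentiableOn_dslope hnb).2 hd
  have hu0 : u 0 = 1 := by rw [hu, dslope_same, h1]
  have huz : ∀ z, z * u z = g z := by
    intro z
    have := sub_smul_dslope g 0 z
    rw [h0, sub_zero, sub_zero, smul_eq_mul] at this
    exact this
  have hun : ∀ z ∈ ball (0 : ℂ) 1, u z ≠ 0 := by
    intro z hz h
    by_cases hz0 : z = 0
    · rw [hz0, hu0] at h
      exact one_ne_zero h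
    · apply hz0
      apply hi hz hb0
      rw [← huz z, h, mul_zero, h0]
  have hsc : IsSimplyConnected (ball (0 : ℂ) 1) := by
    have hc : ContractibleSpace (ball (0 : ℂ) 1) :=
      (convex_ball (0 : ℂ) 1).contractibleSpace (nonempty_ball.2 one_pos)
    unfold IsSimplyConnected
    infer_instance
  obtain ⟨s, hsc', hs⟩ := Complex.exists_continuousOn_pow_eq hsc isOpen_ball (g := u)
    hud.continuousOn (by rintro ⟨z, hz, h⟩; exact hun z hz h) two_ne_zero
  have hsn : ∀ z ∈ ball (0 : ℂ) 1, s z ≠ 0 := by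
    intro z hz h
    apply hun z hz
    rw [← hs z, h]
    simp
  have hsd : ∀ z ∈ ball (0 : ℂ) 1, HasDerivAt s (deriv u z / (2 * s z)) z := by
    intro z hz
    exact Pool.Agent.Helper405.Riemann.sqrt_hasDerivAt (hsc'.continuousAt (isOpen_ball.mem_nhds hz))
      (hud.differentiableAt (isOpen_ball.mem_nhds hz)).hasDerivAt hs (hsn z hz)
  have hsq : ∀ z ∈ ball (0 : ℂ) 1, z ^ 2 ∈ ball (0 : ℂ) 1 := by
    intro z hz
    rw [mem_ball_zero_iff] at hz ⊢
    rw [norm_pow]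
    exact pow_lt_one₀ (norm_nonneg _) hz two_ne_zero
  have hs0 : ‖s 0‖ = 1 := by
    have h2 : ‖s 0‖ ^ 2 = 1 := by rw [← norm_pow, hs 0, hu0, norm_one]
    exact (pow_eq_one_iff_of_nonneg (norm_nonneg _) two_ne_zero).1 h2
  -- the functions
  set p : ℂ → ℂ := fun w => (s w)⁻¹ with hp
  set P : ℂ → ℂ := fun z => p (z ^ 2) with hPdef
  set h : ℂ → ℂ := fun z => z⁻¹ * P z with hh
  have hpd : ∀ z ∈ ball (0 : ℂ) 1, HasDerivAt p (-(deriv u z / (2 * s z)) / (s z) ^ 2) z := by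
    intro z hz
    exact (hsd z hz).inv (hsn z hz)
  have hPd' : ∀ z ∈ ball (0 : ℂ) 1, HasDerivAt P (deriv p (z ^ 2) * (2 * z)) z := by
    intro z hz
    have e1 := (hpd (z ^ 2) (hsq z hz)).differentiableAt.hasDerivAt
    have e2 : HasDerivAt (fun z : ℂ => z ^ 2) (2 * z) z := by
      simpa using hasDerivAt_pow 2 z
    have e3 := HasDerivAt.comp (h₂ := p) (h := fun z : ℂ => z ^ 2) z e1 e2
    exact e3
  have hPd : DifferentiableOn ℂ P (ball 0 1) := fun z hz => (hPd' z hz).differentiableAt.differentiableWithinAt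
  have hPn : ∀ z ∈ ball (0 : ℂ) 1, P z ≠ 0 := fun z hz => inv_ne_zero (hsn _ (hsq z hz))
  have hhd : DifferentiableOn ℂ h Pool.Agent.Helper405.Area.Dp := by
    intro z hz
    have hz0 : z ≠ 0 := hz.2
    exact ((differentiableAt_inv hz0).mul (hPd' z hz.1).differentiableAt).differentiableWithinAt
  have hhsq : ∀ z ∈ Pool.Agent.Helper405.Area.Dp, (h z) ^ 2 = (g (z ^ 2))⁻¹ := by
    intro z hz
    simp only [hh, hPdef, hp]
    rw [mul_pow, inv_pow, inv_pow, hs, ← mul_inv, huz]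
  have hhi : InjOn h Pool.Agent.Helper405.Area.Dp := by
    intro z hz w hw hzw
    have hz0 : z ≠ 0 := hz.2
    have e1 : (g (z ^ 2)) = (g (w ^ 2)) := by
      have := hhsq z hz
      rw [hzw, hhsq w hw] at this
      exact (inv_injective this).symm
    have e2 : z ^ 2 = w ^ 2 := hi (hsq z hz.1) (hsq w hw.1) e1
    rcases sq_eq_sq_iff_eq_or_eq_neg.1 e2 with e3 | e3
    · exact e3
    · exfalso
      have e4 : h w = - h z := by
        simp only [hh, hPdef]
        rw [← e2, e3]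
        rw [inv_neg]
        ring
      rw [← hzw] at e4
      have e5 : h z = 0 := by
        have : (2 : ℂ) * h z = 0 := by linear_combination e4
        simpa using this
      exact (mul_ne_zero (inv_ne_zero hz0) (hPn z hz.1)) e5
  have hPc : ContinuousAt P 0 := (hPd' 0 hb0).continuousAt
  have hhp : Tendsto h (𝓝[≠] 0) (Bornology.cobounded ℂ) := by
    have e1 : Tendsto (fun z : ℂ => z⁻¹) (𝓝[≠] 0) (Bornology.cobounded ℂ) := Filter.tendsto_inv₀_nhdsNE_zero
    have e2 : Tendsto P (𝓝[≠] 0) (𝓝 (P 0)) := hPc.tendsto.mono_left nhdsWithin_le_nhds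
    rw [← tendsto_norm_atTop_iff_cobounded] at e1 ⊢
    have e3 := e1.atTop_mul_pos (norm_pos_iff.2 (hPn 0 hb0)) e2.norm
    refine e3.congr fun z => ?_
    simp only [hh, norm_mul]
  set a : ℕ → ℂ := fun n => (n.factorial : ℂ)⁻¹ * iteratedDeriv n P 0 with ha_def
  have ha : ∀ z ∈ ball (0:ℂ) 1, HasSum (fun j => a j * z ^ j) (P z) := by
    intro z hz
    have := Complex.hasSum_taylorSeries_on_ball hPd hz
    have e : (fun n : ℕ => (n.factorial : ℂ)⁻¹ • (z - 0) ^ n • iteratedDeriv n P 0) = fun j => a j * z ^ j := by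
      funext n
      simp only [ha_def, smul_eq_mul, sub_zero]
      ring
    rw [e] at this
    exact this
  have ha0 : ‖a 0‖ = 1 := by
    simp only [ha_def, Nat.factorial_zero, Nat.cast_one, inv_one, one_mul, iteratedDeriv_zero, hPdef, hp]
    rw [norm_inv]
    simp [hs0]
  have ha2 : a 2 = deriv p 0 := by
    have e1 : iteratedDeriv 2 P 0 = 2 * deriv p 0 := by
      rw [iteratedDeriv_succ, iteratedDeriv_one]
      have e2 : deriv P =ᶠ[𝓝 0] fun z => deriv p (z ^ 2) * (2 * z) := by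
        filter_upwards [hnb] with z hz
        exact (hPd' z hz).deriv
      rw [e2.deriv_eq]
      have hpan : DifferentiableOn ℂ p (ball 0 1) := fun z hz => (hpd z hz).differentiableAt.differentiableWithinAt
      have e3 : DifferentiableAt ℂ (deriv p) ((0:ℂ) ^ 2) := by
        rw [zero_pow two_ne_zero]
        exact (hpan.deriv isOpen_ball).differentiableAt hnb
      have e4 : HasDerivAt (fun z : ℂ => z ^ 2) (2 * 0) 0 := by
        simpa using hasDerivAt_pow 2 (0:ℂ)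
      have e5 := (e3.hasDerivAt.comp (0:ℂ) e4).mul ((hasDerivAt_id (0:ℂ)).const_mul 2)
      have e6 := e5.deriv
      simp only [Function.comp_def, id] at e6
      refine Eq.trans ?_ (e6.trans ?_)
      · rfl
      · simp [mul_comm]
    simp only [ha_def]
    rw [e1]
    norm_num [Nat.factorial]
    ring
  have hpu : ‖deriv p 0‖ = ‖deriv u 0‖ / 2 := by
    rw [(hpd 0 hb0).deriv, norm_div, norm_neg, norm_div, norm_mul, norm_pow, hs0]
    norm_num
  have hgu : deriv (deriv g) 0 = 2 * deriv u 0 := by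
    have e1 : deriv g =ᶠ[𝓝 0] fun z => u z + z * deriv u z := by
      filter_upwards [hnb] with z hz
      have e2 : HasDerivAt g (1 * u z + z * deriv u z) z := by
        have := (hasDerivAt_id z).mul (hud.differentiableAt (isOpen_ball.mem_nhds hz)).hasDerivAt
        refine this.congr_of_eventuallyEq (Eventually.of_forall fun w => ?_)
        exact (huz w).symm
      rw [e2.deriv, one_mul]
    rw [e1.deriv_eq]
    have e3 : HasDerivAt u (deriv u 0) 0 := (hud.differentiableAt hnb).hasDerivAt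
    have e4 : HasDerivAt (deriv u) (deriv (deriv u) 0) 0 := ((hud.deriv isOpen_ball).differentiableAt hnb).hasDerivAt
    have e5 := (e3.add ((hasDerivAt_id (0:ℂ)).mul e4)).deriv
    refine Eq.trans ?_ (e5.trans ?_)
    · rfl
    · simp
      ring
  -- conclude
  have key : ∀ r : ℝ, 0 < r → r < 1 → ‖a 2‖ ^ 2 * r ^ 4 ≤ 1 := by
    intro r hr0 hr1
    have hA := Pool.Agent.Helper405.Area.area hhd hhi hhp (V := id) differentiable_id hPd (m := 1)
      (by
        intro z hz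
        have hz0 : z ≠ 0 := hz.2
        simp only [id, hh, pow_one]
        field_simp) ha hr0 hr1
    have hsum1 := Pool.Agent.Helper405.Area.summable_of_hasSum ha hr0.le hr1
    have hsum2 := Pool.Agent.Helper405.Area.summable_of_hasSum (Pool.Agent.Helper405.Area.hasSum_Q ha 1) hr0.le hr1
    have hsum : Summable fun j : ℕ => ((j : ℝ) - (1 : ℕ)) * ‖a j‖ ^ 2 * r ^ (2 * j) := by
      obtain ⟨C, hC⟩ : ∃ C : ℝ, ∀ j, ‖a j‖ * r ^ j ≤ C := by
        refine ⟨∑' j, ‖a j‖ * r ^ j, fun j => hsum1.le_tsum j fun i _ => by positivity⟩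
      refine Summable.of_norm_bounded (hsum2.mul_right C) fun j => ?_
      have e1 : ‖(((j : ℂ) - (1 : ℕ)) * a j)‖ = |(j : ℝ) - (1:ℕ)| * ‖a j‖ := by
        rw [norm_mul]
        congr 1
        rw [← Real.norm_eq_abs, ← Complex.norm_real]
        push_cast
        rfl
      rw [e1]
      rw [norm_mul, norm_mul, Real.norm_eq_abs, norm_pow, norm_pow, norm_norm, Real.norm_of_nonneg hr0.le]
      have e2 : |(j : ℝ) - (1:ℕ)| * ‖a j‖ ^ 2 * r ^ (2 * j) = (|(j : ℝ) - (1:ℕ)| * ‖a j‖ * r ^ j) * (‖a j‖ * r ^ j) := by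
        ring
      rw [e2]
      exact mul_le_mul_of_nonneg_left (hC j) (by positivity)
    have h3 := hsum.sum_le_tsum (Finset.range 3) (by
      intro i hi
      have hi3 : 3 ≤ i := by simpa using hi
      have hi4 : (3:ℝ) ≤ i := by exact_mod_cast hi3
      have hi5 : 0 ≤ (i:ℝ) - (1:ℕ) := by push_cast; linarith
      positivity)
    have h4 := h3.trans hA
    rw [Finset.sum_range_succ, Finset.sum_range_succ, Finset.sum_range_one] at h4
    have e0 : (((0:ℕ) : ℝ) - (1:ℕ)) * ‖a 0‖ ^ 2 * r ^ (2 * 0) = -1 := by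
      rw [ha0]; norm_num
    have e1 : (((1:ℕ) : ℝ) - (1:ℕ)) * ‖a 1‖ ^ 2 * r ^ (2 * 1) = 0 := by
      simp
    have e2 : (((2:ℕ) : ℝ) - (1:ℕ)) * ‖a 2‖ ^ 2 * r ^ (2 * 2) = ‖a 2‖ ^ 2 * r ^ 4 := by
      norm_num
    rw [e0, e1, e2] at h4
    linarith
  have hfin : ‖a 2‖ ≤ 1 := by
    by_contra hcon
    push Not at hcon
    have hc : Tendsto (fun r : ℝ => ‖a 2‖ ^ 2 * r ^ 4) (𝓝[<] 1) (𝓝 (‖a 2‖ ^ 2 * 1 ^ 4)) := by
      apply Tendsto.mono_left _ nhdsWithin_le_nhds
      exact (continuous_const.mul (continuous_id.pow 4)).tendsto 1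
    have h4 : ‖a 2‖ ^ 2 * 1 ^ 4 ≤ 1 := by
      apply le_of_tendsto hc
      have : Ioo (0:ℝ) 1 ∈ 𝓝[<] (1:ℝ) := Ioo_mem_nhdsLT one_pos
      filter_upwards [this] with r hr
      exact key r hr.1 hr.2
    nlinarith
  rw [hgu, norm_mul]
  rw [ha2, hpu] at hfin
  norm_num
  linarith

theorem bieb {g : ℂ → ℂ} (hd : DifferentiableOn ℂ g (ball 0 1)) (hi : InjOn g (ball 0 1)) :
    ‖deriv (deriv g) 0‖ ≤ 4 * ‖deriv g 0‖ := by
  have hb0 : (0 : ℂ) ∈ ball (0 : ℂ) 1 := mem_ball_self one_pos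
  have hne := Pool.Agent.Helper405.Conv.deriv_ne_zero_of_injOn isOpen_ball hd hi hb0
  set g0 : ℂ → ℂ := fun z => (deriv g 0)⁻¹ * (g z - g 0) with hg0
  have hd0 : DifferentiableOn ℂ g0 (ball 0 1) := (hd.sub_const _).const_mul _
  have hi0 : InjOn g0 (ball 0 1) := by
    intro z hz w hw h
    apply hi hz hw
    have := mul_left_cancel₀ (inv_ne_zero hne) h
    linear_combination this
  have hder : deriv g0 = fun z => (deriv g 0)⁻¹ * deriv g z := by
    funext z
    simp only [hg0]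
    rw [deriv_const_mul_field, deriv_sub_const]
  have h := bieb_norm hd0 hi0 (by simp [hg0]) (by rw [hder]; exact inv_mul_cancel₀ hne)
  rw [hder, deriv_const_mul_field, norm_mul, norm_inv] at h
  have hpos := norm_pos_iff.2 hne
  rw [inv_mul_le_iff₀ hpos] at h
  linarith

/-- Koebe/Bieberbach in invariant form (`|a_2| ≤ 2`). -/
theorem koebe_second {ψ : ℂ → ℂ} (hd : DifferentiableOn ℂ ψ (ball 0 1)) (hi : InjOn ψ (ball 0 1))
    {ζ : ℂ} (hζ : ζ ∈ ball (0 : ℂ) 1) :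
    ‖deriv (deriv ψ) ζ * (1 - ‖ζ‖ ^ 2 : ℝ) - 2 * (starRingEnd ℂ) ζ * deriv ψ ζ‖ ≤ 4 * ‖deriv ψ ζ‖ := by
  rw [mem_ball_zero_iff] at hζ
  have hc : ‖-ζ‖ < 1 := by rwa [norm_neg]
  set M : ℂ → ℂ := Pool.Agent.Helper405.Riemann.bl (-ζ) with hM
  have hMd : ∀ z ∈ ball (0:ℂ) 1, HasDerivAt M ((1 - (starRingEnd ℂ) (-ζ) * (-ζ)) / (1 - (starRingEnd ℂ) (-ζ) * z) ^ 2) z := by
    intro z hz
    exact Pool.Agent.Helper405.Riemann.bl_hasDerivAt hc (by rwa [mem_ball_zero_iff] at hz)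
  have hMm : ∀ z ∈ ball (0:ℂ) 1, M z ∈ ball (0:ℂ) 1 := by
    intro z hz
    rw [mem_ball_zero_iff] at hz ⊢
    exact Pool.Agent.Helper405.Riemann.bl_norm_lt hc hz
  have hb0 : (0 : ℂ) ∈ ball (0 : ℂ) 1 := mem_ball_self one_pos
  have hnb : ball (0 : ℂ) 1 ∈ 𝓝 (0 : ℂ) := isOpen_ball.mem_nhds hb0
  have hM0 : M 0 = ζ := by rw [hM, Pool.Agent.Helper405.Riemann.bl_zero, neg_neg]
  have hψd : ∀ z ∈ ball (0:ℂ) 1, HasDerivAt ψ (deriv ψ z) z := fun z hz =>
    (hd.differentiableAt (isOpen_ball.mem_nhds hz)).hasDerivAt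
  have hgd : ∀ z ∈ ball (0:ℂ) 1, HasDerivAt (ψ ∘ M) (deriv ψ (M z) * ((1 - (starRingEnd ℂ) (-ζ) * (-ζ)) / (1 - (starRingEnd ℂ) (-ζ) * z) ^ 2)) z := by
    intro z hz
    exact (hψd (M z) (hMm z hz)).comp z (hMd z hz)
  have hgi : InjOn (ψ ∘ M) (ball 0 1) := by
    intro z hz w hw h
    have h1 := hi (hMm z hz) (hMm w hw) h
    rw [mem_ball_zero_iff] at hz hw
    exact Pool.Agent.Helper405.Riemann.bl_inj hc hz hw h1
  have hB := bieb (g := ψ ∘ M) (fun z hz => (hgd z hz).differentiableAt.differentiableWithinAt) hgi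
  set A : ℂ := 1 - (starRingEnd ℂ) (-ζ) * (-ζ) with hA
  have hAe : A = ((1 - ‖ζ‖ ^ 2 : ℝ) : ℂ) := by
    rw [hA, map_neg, neg_mul_neg, ← Complex.normSq_eq_conj_mul_self, Complex.normSq_eq_norm_sq]
    push_cast
    ring
  have hApos : 0 < 1 - ‖ζ‖ ^ 2 := by nlinarith [norm_nonneg ζ]
  have hg1 : deriv (ψ ∘ M) 0 = deriv ψ ζ * A := by
    rw [(hgd 0 hb0).deriv, hM0]
    simp
  have hg2 : deriv (deriv (ψ ∘ M)) 0 = (deriv (deriv ψ) ζ * A - 2 * (starRingEnd ℂ) ζ * deriv ψ ζ) * A := by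
    have e1 : deriv (ψ ∘ M) =ᶠ[𝓝 0] fun z => deriv ψ (M z) * (A / (1 - (starRingEnd ℂ) (-ζ) * z) ^ 2) := by
      filter_upwards [hnb] with z hz
      exact (hgd z hz).deriv
    rw [e1.deriv_eq]
    have hζm : ζ ∈ ball (0:ℂ) 1 := by rwa [mem_ball_zero_iff]
    have e2 : HasDerivAt (deriv ψ) (deriv (deriv ψ) ζ) (M 0) := by
      rw [hM0]
      exact ((hd.deriv isOpen_ball).differentiableAt (isOpen_ball.mem_nhds hζm)).hasDerivAt
    have e3 := e2.comp (0:ℂ) (hMd 0 hb0)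
    have e4 : HasDerivAt (fun z : ℂ => 1 - (starRingEnd ℂ) (-ζ) * z) (-(starRingEnd ℂ) (-ζ)) 0 := by
      have := ((hasDerivAt_id (0:ℂ)).const_mul ((starRingEnd ℂ) (-ζ))).const_sub 1
      simpa using this
    have e5 : HasDerivAt (fun z : ℂ => A / (1 - (starRingEnd ℂ) (-ζ) * z) ^ 2) (-2 * (starRingEnd ℂ) ζ * A) 0 := by
      have := (hasDerivAt_const (0:ℂ) A).div (e4.pow 2) (by simp)
      refine this.congr_deriv ?_
      simp
      ring
    have e6 := (e3.mul e5).deriv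
    refine Eq.trans ?_ (e6.trans ?_)
    · rfl
    · simp only [Function.comp_def, hM0, mul_zero, sub_zero, one_pow, div_one]
      ring
  rw [hg1, hg2, norm_mul, norm_mul, hAe, Complex.norm_real, Real.norm_of_nonneg hApos.le, ← mul_assoc] at hB
  exact le_of_mul_le_mul_right hB hApos



end ZFM.J_b1

alias ZFM.koebe_second := ZFM.J_b1.koebe_second
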