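import Mathlib

open Complex Filter Topology Set Metric

namespace ZFM

/-- `∂̄ g` -/
noncomputable def dbar (g : ℂ → ℂ) (z : ℂ) : ℂ := (fderiv ℝ g z 1 + I * fderiv ℝ g z I) / 2

/-- `∂ g` -/
noncomputable def del (g : ℂ → ℂ) (z : ℂ) : ℂ := (fderiv ℝ g z 1 - I * fderiv ℝ g z I) / 2

/-- the Laplacian, as `4 ∂ ∂̄ g` -/
noncomputable def lap (g : ℂ → ℂ) (z : ℂ) : ℂ := 4 * del (dbar g) z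

/-- minus the (1/8)-th power of the conformal radius -/
noncomputable def phiR (ψ : ℂ → ℂ) (z : ℂ) : ℝ := -((1 - ‖z‖ ^ 2) * ‖deriv ψ z‖) ^ ((1 / 8) : ℝ)

/-- rises from 0 to 1 on `[0,1/8]`, minus rise on `[1/4,1/2]` -/
noncomputable def bump (x : ℝ) : ℝ := Real.smoothTransition (8 * x) - Real.smoothTransition (4 * x - 1)

/-- profile of the transition in the arms -/
noncomputable def prof (β x : ℝ) : ℝ :=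
  Real.exp (-(β * Real.smoothTransition (4 * x - 1))) * (1 - Real.smoothTransition (4 * x - 2))

/-- convex function, `0` for `x ≤ -3X` -/
noncomputable def rho (X x : ℝ) : ℝ := (max (x / X + 3) 0) ^ 3 / 27

/-- cut-off: `0` for `x ≥ -X`, `1` for `x ≤ -2X` -/
noncomputable def cut2 (X x : ℝ) : ℝ := Real.smoothTransition (-(x / X) - 1)

/-- Data in the disc. -/
structure Data (T R M δ : ℝ) (ψ F : ℂ → ℂ) (t : ℂ → ℝ) (l0 l : ℂ → ℂ) : Prop where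
  ψd : DifferentiableOn ℂ ψ (ball 0 1)
  ψi : InjOn ψ (ball 0 1)
  ψb : MapsTo ψ (ball 0 1) (ball 0 1)
  Fd : DifferentiableOn ℂ F (ball 0 1)
  Fb : ∀ z ∈ ball (0 : ℂ) 1, ‖F z‖ < 1
  td : ContDiff ℝ 2 t
  t0 : ∀ z, 0 ≤ t z
  t1 : ∀ z, t z ≤ 1
  tM1 : ∀ z ∈ ball (0 : ℂ) 1, ‖dbar (fun w => (t w : ℂ)) z‖ ≤ M
  tM2 : ∀ z ∈ ball (0 : ℂ) 1, ‖del (dbar (fun w => (t w : ℂ))) z‖ ≤ M
  tF1 : ∀ z ∈ ball (0 : ℂ) 1, Real.exp (-T) ≤ ‖F z‖ → t (ψ z) = 1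
  tF0 : ∀ z ∈ ball (0 : ℂ) 1, ‖F z‖ ≤ Real.exp (-(2 * T)) → t (ψ z) = 0
  l0d : DifferentiableOn ℂ l0 (ball 0 1 ∩ {z | Real.exp (-(3 * T)) < ‖F z‖})
  l0e : ∀ z ∈ ball (0 : ℂ) 1 ∩ {z | Real.exp (-(3 * T)) < ‖F z‖}, exp (l0 z) = F z
  l0R : ∀ z ∈ ball (0 : ℂ) 1 ∩ {z | Real.exp (-(3 * T)) < ‖F z‖}, ‖l0 z‖ ≤ R
  ld : DifferentiableOn ℂ l (ball 0 1 ∩ {z | δ < ‖F z‖})
  le : ∀ z ∈ ball (0 : ℂ) 1 ∩ {z | δ < ‖F z‖}, exp (l z) = F z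

open Classical in
/-- The approximate logarithm. -/
noncomputable def Gf (T X : ℝ) (ψ F : ℂ → ℂ) (t : ℂ → ℝ) (l0 l Ψ : ℂ → ℂ) (k : ℂ → ℤ) (m : ℤ → ℤ)
    (β : ℤ → ℝ) (z : ℂ) : ℂ :=
  if Real.exp (-(3 * T)) < ‖F z‖ then
    (l0 z + 2 * Real.pi * I * (m (k z) : ℂ))
      + (prof (β (k z)) (t (ψ z)) : ℂ) * (Ψ (l z) - 2 * Real.pi * I * (m (k z) : ℂ) - l0 z)
  else if Real.exp (-(4 * X)) < ‖F z‖ then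
    Ψ (l z) + (cut2 X (l z).re : ℂ) * (-(2 * (T : ℂ)) - Ψ (l z))
  else -(2 * (T : ℂ))

open Classical in
/-- The potential. -/
noncomputable def pf (T X c0 : ℝ) (ψ F : ℂ → ℂ) (t : ℂ → ℝ) (l : ℂ → ℂ) (k : ℂ → ℤ)
    (β : ℤ → ℝ) (z : ℂ) : ℝ :=
  if Real.exp (-(3 * T)) < ‖F z‖ then
    c0 + phiR ψ z + β (k z) * bump (t (ψ z)) + rho X (l z).re
  else if Real.exp (-(4 * X)) < ‖F z‖ then c0 + phiR ψ z + rho X (l z).re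
  else c0 + phiR ψ z

/-- Everything that is needed to run the argument. -/
structure Good (ε T R M X c0 η C2 C3 : ℝ) (ψ F : ℂ → ℂ) (t : ℂ → ℝ) (l0 l Ψ : ℂ → ℂ)
    (k : ℂ → ℤ) (m : ℤ → ℤ) (β κ : ℤ → ℝ) : Prop where
  D : Data T R M (Real.exp (-(4 * X))) ψ F t l0 l
  hT : 1 ≤ T
  hX : 3 * T ≤ X
  kc : ContinuousOn k (ball 0 1 ∩ {z | Real.exp (-(3 * T)) < ‖F z‖})
  kl : ∀ z ∈ ball (0 : ℂ) 1 ∩ {z | Real.exp (-(3 * T)) < ‖F z‖}, l z = l0 z + 2 * Real.pi * I * (k z : ℂ)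
  Ψd : DifferentiableOn ℂ Ψ {w | w.re < 0}
  ΨT : ∀ w : ℂ, w.re ≤ -T → (Ψ w).re ≤ -(T / 10)
  ΨX : ∀ w : ℂ, w.re ≤ -X → ‖Ψ w + 2 * T‖ ≤ η ∧ ‖deriv Ψ w‖ ≤ η / X
  η0 : 0 ≤ η
  β0 : ∀ n, 0 ≤ β n
  κ0 : ∀ n, 0 ≤ κ n
  hC3 : C3 * (η * Real.exp (-c0)) ≤ 1
  hc1 : 44 * Real.exp (1 + c0) ≤ T / 10
  hc2 : 22 * Real.exp (1 + c0) ≤ ε
  hc3 : 11 * Real.exp (1 + c0) ≤ 1
  hTε : Real.exp (-(T / 20)) + Real.exp (-T) ≤ ε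
  arms : ∀ z ∈ ball (0 : ℂ) 1, 0 < t (ψ z) → t (ψ z) < 1 →
    ‖Ψ (l z) - 2 * Real.pi * I * (m (k z) : ℂ) - l0 z‖
      ≤ κ (k z) * Real.exp c0 * Real.exp (β (k z)) ∧
    ‖deriv Ψ (l z) - 1‖ ≤ κ (k z) * Real.exp c0 * Real.exp (β (k z)) ∧
    C2 * κ (k z) * (1 + β (k z)) * (1 / ((1 - ‖z‖ ^ 2) * ‖deriv ψ z‖) + 1 + β (k z))
      ≤ ((1 - ‖z‖ ^ 2) * ‖deriv ψ z‖) ^ (-(15 / 8) : ℝ) ∧
    C2 * β (k z) ≤ ((1 - ‖z‖ ^ 2) * ‖deriv ψ z‖) ^ (-(15 / 8) : ℝ) ∧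
    44 * Real.exp (1 + c0) * Real.exp (β (k z)) ≤ -(Ψ (l z)).re

/-- Admissible cluster data: at most `N` centres, pole offsets in `[n, 2n]`, separation `Θ`. -/
structure Adm (N n Θ : ℕ) (Cl : Finset ℤ) (d : ℤ → ℤ) : Prop where
  card : Cl.card ≤ N
  lo : ∀ c ∈ Cl, (n : ℤ) ≤ d c
  hi : ∀ c ∈ Cl, d c ≤ 2 * n
  sep : ∀ c ∈ Cl, ∀ c' ∈ Cl, c ≠ c' → (Θ : ℤ) ≤ |c - c'|

/-- The model function. -/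
noncomputable def Psi (T : ℝ) (Cl : Finset ℤ) (d : ℤ → ℤ) (n : ℕ) (w : ℂ) : ℂ :=
  -∑ c ∈ Cl, (2 * Real.pi * (d c : ℂ)) ^ 2 / (2 * Real.pi * I * ((c : ℂ) + (d c : ℂ)) - w)
    - 2 * (T : ℂ) * (1 - ∑ c ∈ Cl, ((n : ℂ) / 4) ^ 2 / ((n : ℂ) / 4 + 2 * Real.pi * I * (c : ℂ) - w) ^ 2)

/-- `point_arms` for a given constant `C2`. -/
def ArmsProp (M K C2 : ℝ) : Prop :=
    ∀ (ψ a j lam G : ℂ → ℂ) (t φ : ℂ → ℝ) (z : ℂ) (c0 β κ X R : ℝ),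
    DifferentiableOn ℂ ψ (ball 0 1) → InjOn ψ (ball 0 1) → MapsTo ψ (ball 0 1) (ball 0 1) →
    z ∈ ball (0 : ℂ) 1 → R = (1 - ‖z‖ ^ 2) * ‖deriv ψ z‖ →
    AnalyticAt ℂ a z → AnalyticAt ℂ j z → AnalyticAt ℂ lam z → (lam z).re ≤ 0 →
    ContDiff ℝ 2 t → 0 ≤ t (ψ z) → t (ψ z) ≤ 1 →
    ‖dbar (fun w => (t w : ℂ)) (ψ z)‖ ≤ M → ‖del (dbar (fun w => (t w : ℂ))) (ψ z)‖ ≤ M →
    0 ≤ β → 0 ≤ κ → 1 ≤ X →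
    (0 < t (ψ z) → t (ψ z) < 1 →
      ‖deriv lam z‖ ≤ K * ‖deriv ψ z‖ / R ∧
      ‖j z‖ ≤ κ * Real.exp c0 * Real.exp β ∧
      ‖deriv j z‖ ≤ κ * Real.exp c0 * Real.exp β * (K * ‖deriv ψ z‖ / R) ∧
      C2 * κ * (1 + β) * (1 / R + 1 + β) ≤ R ^ (-(15 / 8) : ℝ) ∧ C2 * β ≤ R ^ (-(15 / 8) : ℝ)) →
    G =ᶠ[𝓝 z] (fun w => a w + (prof β (t (ψ w)) : ℂ) * j w) →
    φ =ᶠ[𝓝 z] (fun w => c0 + phiR ψ w + β * bump (t (ψ w)) + rho X (lam w).re) →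
    ContDiffAt ℝ 2 G z ∧ ContDiffAt ℝ 2 φ z ∧
    ‖dbar G z‖ ^ 2 ≤ Real.exp (φ z) ^ 2 * (lap (fun z => (φ z : ℂ)) z).re ∧
    ‖del (dbar G) z - 2 * dbar G z * del (fun z => (φ z : ℂ)) z‖
        ≤ Real.exp (φ z) * (lap (fun z => (φ z : ℂ)) z).re

/-- `point_body` for a given constant `C3`. -/
def BodyProp (C3 : ℝ) : Prop :=
    ∀ (ψ a j lam G : ℂ → ℂ) (φ : ℂ → ℝ) (z : ℂ) (c0 κ X : ℝ),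
    DifferentiableOn ℂ ψ (ball 0 1) → InjOn ψ (ball 0 1) → MapsTo ψ (ball 0 1) (ball 0 1) →
    z ∈ ball (0 : ℂ) 1 →
    AnalyticAt ℂ a z → AnalyticAt ℂ j z → AnalyticAt ℂ lam z → (lam z).re ≤ 0 →
    0 ≤ κ → 1 ≤ X → C3 * κ ≤ 1 →
    (-(2 * X) ≤ (lam z).re → (lam z).re ≤ -X →
      ‖j z‖ ≤ κ * Real.exp c0 ∧ ‖deriv j z‖ ≤ κ * Real.exp c0 * ‖deriv lam z‖ / X) →
    G =ᶠ[𝓝 z] (fun w => a w + (cut2 X (lam w).re : ℂ) * j w) →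
    φ =ᶠ[𝓝 z] (fun w => c0 + phiR ψ w + rho X (lam w).re) →
    ContDiffAt ℝ 2 G z ∧ ContDiffAt ℝ 2 φ z ∧
    ‖dbar G z‖ ^ 2 ≤ Real.exp (φ z) ^ 2 * (lap (fun z => (φ z : ℂ)) z).re ∧
    ‖del (dbar G) z - 2 * dbar G z * del (fun z => (φ z : ℂ)) z‖
        ≤ Real.exp (φ z) * (lap (fun z => (φ z : ℂ)) z).re

/-- Conditions on an open set `U` (not nec. connected) that pull back to `Data`. -/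
structure UData (T R M δ : ℝ) (U : Set ℂ) (P : ℂ → ℂ) (t : ℂ → ℝ) (l0 l : ℂ → ℂ) : Prop where
  Uo : IsOpen U
  Ub : U ⊆ ball 0 1
  prim : ∀ g : ℂ → ℂ, DifferentiableOn ℂ g U → ∃ G : ℂ → ℂ, ∀ z ∈ U, HasDerivAt G (g z) z
  Pd : DifferentiableOn ℂ P U
  Pb : ∀ z ∈ U, ‖P z‖ < 1
  td : ContDiff ℝ 2 t
  t0 : ∀ z, 0 ≤ t z
  t1 : ∀ z, t z ≤ 1
  tM1 : ∀ z ∈ ball (0 : ℂ) 1, ‖dbar (fun w => (t w : ℂ)) z‖ ≤ M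
  tM2 : ∀ z ∈ ball (0 : ℂ) 1, ‖del (dbar (fun w => (t w : ℂ))) z‖ ≤ M
  tF1 : ∀ z ∈ U, Real.exp (-T) ≤ ‖P z‖ → t z = 1
  tF0 : ∀ z ∈ U, ‖P z‖ ≤ Real.exp (-(2 * T)) → t z = 0
  l0d : DifferentiableOn ℂ l0 (U ∩ {z | Real.exp (-(3 * T)) < ‖P z‖})
  l0e : ∀ z ∈ U ∩ {z | Real.exp (-(3 * T)) < ‖P z‖}, exp (l0 z) = P z
  l0R : ∀ z ∈ U ∩ {z | Real.exp (-(3 * T)) < ‖P z‖}, ‖l0 z‖ ≤ R
  ld : DifferentiableOn ℂ l (U ∩ {z | δ < ‖P z‖})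
  le : ∀ z ∈ U ∩ {z | δ < ‖P z‖}, exp (l z) = P z


end ZFM
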